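import Mathlib
import Pool.Agent.Run7.h413.DN.MinPlus

/-!
# Shortest paths: deep networks of minima, sums and products with shared values

The decision version of the distance product (shortest paths of length two): given the weights of a
complete tripartite graph with three layers of `n` vertices, all of them integers between `1` and
`n + 1` (`InRange`), is some edge `i → j` longer than a path `i → k → j` (`shortcut`)? The items of
the input are the weights between the second and the third layer (one item), and for each vertex
`i` of the first layer the weights of all the edges at `i`.

*Networks* (`Net`). The nodes carry real numbers of unlimited precision, and **the value of a node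
may be used by any number of other nodes**. The gates are leaves (arbitrary real functions of one
item, or of `w` words with `n ^ c` values, each of which is an arbitrary function of one item),
weighted sums of any number of inputs (`lin`), products of two inputs (`mul`), maxima of any number
of inputs (`max`), and symmetric gates (`sym`), whose value is an arbitrary function of the number
of the positive inputs. So deep networks of rectified linear units, threshold gates, minima, maxima
and products are included. A network accepts if the value of the output node is positive. The
inputs of a gate have smaller levels; the depth is at most `d` if all levels are at most `d`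
(`DepthLE`).

*Cost.* For each vertex `i` of the first layer we count the leaves which see its item, and the
wires which leave a node that depends on it (`traffic`). The cost is the sum of these numbers. So a
wire pays the number of the vertices of the first layer on which its source depends; what depends
on the weights between the second and the third layer only is free.

We show that random networks of depth at most `d` with error probability at most `1 / 3` have cost
`s` with `n ^ 3 log₂ n ≤ 1100 (w c log₂ n + d (d + log₂ n)) s`. So for `d ≤ log₂ n` the cost is at
least of the order `n ^ 3 / (w c + d)`, and it is `n ^ (3 - o (1))` for all depths `d = n ^ o (1)`.

Proof. The item of a vertex `i` can ask for about `n ^ 2 log₂ n` bits which are encoded in the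
weights between the second and the third layer. Fix all other items (Nechiporuk's method). If `r`
leaves and wires depend on the item, then the other items enter by at most `2 r` real parameters:
the rest of a weighted sum, the other factor, the maximum of the other inputs, or the possible
values of a symmetric gate. If the values of the nodes of level less than `t` are polynomials of
degree at most `2 ^ t` in the parameters, then Warren's theorem bounds the number of the results of
all comparisons at the next level. In this way one passes through the levels (as in the bounds of
Bartlett, Maiorov and Meir for the VC dimension of networks), and there are at most `(q ^ (w - 1)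
(n ^ O (1) 2 ^ d) ^ (2 (d + 2))) ^ r` functions of the item (`Run7.h413.DN.Core`,
`Run7.h413.DN.Sub`).
-/

set_option autoImplicit false

namespace Pool.Agent.Results.MP_885423_lc.DeepNetworks

open Pool.Agent.TH697.Form (IsProb)
open Pool.Agent.TH697.Row (ApproximatesOn)
open Pool.Agent.TH697.Form.MinPlus (Item InRange shortcut)
open Run7.h413.DN (Net)
open Run7.h413.DN.MinPlus (rows)

theorem result : ∀ n c w d : ℕ, 16 ≤ n → 1 ≤ c → 1 ≤ w → 1 ≤ d →
    ∀ (Ω : Type) [Fintype Ω] (μ : Ω → ℝ), IsProb μ →
      ∀ (s : ℕ) (C : Ω → Net (Option (Fin n)) (Item n) w (n ^ c)),
        (∀ ω, (C ω).DepthLE d) → (∀ ω, (C ω).cost (rows n) ≤ s) →
        ApproximatesOn μ (fun ω => (C ω).eval) (InRange n (n + 1)) (shortcut n) →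
        (n : ℝ) ^ 3 * Real.logb 2 n ≤
          1100 * (w * c * Real.logb 2 n + d * (d + Real.logb 2 n)) * s :=
  fun _ _ _ _ hn hc hw hd _ _ μ hμ s C hdep hs hC =>
    Run7.h413.DN.MinPlus.bound hn hc hw hd μ hμ s C hdep hs hC

end Pool.Agent.Results.MP_885423_lc.DeepNetworks
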