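import Mathlib
import Pool.Agent.Run7.h412.FC.MinPlus

/-!
# Shortest paths: circuits over formulas of bilinear maps over a finite field

A directed graph has three layers of `n` vertices and the edge weights `A i k` (first to second
layer), `B k j` (second to third layer) and `C i j` (first to third layer), integers in
`{1, …, n + 1}`. Is some edge `i → j` longer than a path `i → k → j` (`shortcut`)? The items of the input
are the weights of all edges at `i`, for each vertex `i` of the first layer, and the matrix `B`.

*Formulas* (`Fml`). The wires carry vectors of dimension `d` over a finite field `K`. The leaves are
vectors, or matrices which are applied to a vector (`act`), which depend in an arbitrary way on one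
item, or on `w` words of length `c log₂ n`, each of which is an arbitrary function of one item. The
gates are sums, arbitrary bilinear maps of two vectors (`bil`), arbitrary functions of the values of
`e` linear forms (`fn`), and gates `sym` of any fan-in whose value is an arbitrary function of the
number of the inputs for which a linear form is not zero. So products of matrices of order `d` over
`K` (for `K = ZMod 2` in particular branching programs of width `d` and their parity versions), and
the contractions of tensor networks over `K` whose intermediate tensors have at most `d` entries, are
formulas of this kind.

*Circuits* (`Circuit`) compute shared bits; each bit is the result of a branching program whose tests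
are formulas, and the leaves may also read the bits computed before. A leaf which reads an item pays
its price: one for each of the `n` items which belong to the vertices of the first layer (`pairs n`),
nothing for the matrix `B`, and for a shared bit the number of those of the `n` items on which the bit
depends. The cost is the sum of the prices of all leaves, plus the number of inner nodes of the
branching programs, plus the number of wires which lead to gates `sym`. All other gates and constants
are free.

We show that random circuits with error probability at most `1 / 3` have cost `s` with
`n ^ 3 log₂ n ≤ 400 (w c log₂ n + d (d + |K| ^ e) log₂ |K|) s`. So for constant `w`, `c`, `K`, `e` and vectors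
of dimension `O (√(log n))` the cost is of the order `n ^ 3`, and an algorithm of this kind with only
`n ^ (3 - ε)` readings computes with vectors of dimension `n ^ (ε / 2)`, or with shared bits which depend
on many of the items.

Proof. The weights at `i` can ask for about `n ^ 2 log₂ n` bits which are encoded in the matrix `B`
(the queries of helper697 and helper457). We count the functions of this item which arise when the other items are fixed: if
`r` leaves see it or bits which depend on it, there are `O (r)` places at which other parts enter, and
the function of the vector at such a place is an affine map or a function of `e` linear forms; the
values of the shared bits are treated one after the other (`Pool.Agent.N452.FF.Core`,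
`Pool.Agent.N452.FF.Prog`; Nechiporuk's method).
-/

set_option autoImplicit false

namespace Pool.Agent.Results.MP_885423_lc.FieldCircuits

open Pool.Agent.TH697.Form (IsProb)
open Pool.Agent.TH697.Row (ApproximatesOn)
open Pool.Agent.TH697.Form.MinPlus (Item InRange shortcut)
open Pool.Agent.N452.FF (Circuit)
open Pool.Agent.N452.TF.Xor (pairs)

theorem result : ∀ (K : Type) [Field K] [Fintype K] [DecidableEq K] (n c w d e : ℕ),
    16 ≤ n → 1 ≤ c → 1 ≤ w → 1 ≤ e →
    ∀ (Ω : Type) [Fintype Ω] (μ : Ω → ℝ), IsProb μ →
      ∀ (s : ℕ) (C : Ω → Circuit K (Option (Fin n)) (Item n) w (n ^ c) d e),
        (∀ ω, (C ω).circ.cost (pairs n) ≤ s) →
        ApproximatesOn μ (fun ω => (C ω).eval) (InRange n (n + 1)) (shortcut n) →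
        (n : ℝ) ^ 3 * Real.logb 2 n ≤ 400 * (w * c * Real.logb 2 n +
          d * (d + (Fintype.card K : ℝ) ^ e) * Real.logb 2 (Fintype.card K)) * s :=
  fun _ _ _ _ _ _ _ _ _ hn hc hw he _ _ μ hμ s C hs hC =>
    Pool.Agent.Run7.h412.FC.MinPlus.bound hn hc hw he μ hμ s C hs hC

end Pool.Agent.Results.MP_885423_lc.FieldCircuits
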