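import Mathlib
import Pool.Agent.Run7.h413.MX.MinPlus

/-!
# Shortest paths: circuits over real formulas with sums, products, minima and maxima

The decision version of the distance product (shortest paths of length two): given the weights of a
complete tripartite graph with three layers of `n` vertices, all of them integers between `1` and
`n + 1` (`InRange`), is some edge `i → j` longer than a path `i → k → j` (`shortcut`)? The items of
the input are the weights between the second and the third layer (one item), and for each vertex
`i` of the first layer the weights of all the edges at `i`.

*Formulas* (`Fml`). The wires carry real numbers of unlimited precision. The leaves are arbitrary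
real functions of one item, or of `w` words with `n ^ c` values, each of which is an arbitrary
function of one item. The gates are sums, products, **maxima**, tests of the sign with two
arbitrary results (`test`), and gates `sym` of any fan-in whose value is an arbitrary function of
the number of the positive inputs. Since constants are free, minima, rectified linear units `max
(x, 0)` and clipping are included: `min (x, y) = - max (- x, - y)`.

*Circuits* (`Circuit`) compute shared bits; each bit is the result of a branching program whose
tests are formulas, and the leaves may also read the bits computed before. A leaf which reads one
of the `n` items of the vertices of the first layer pays one (however much of it is used), readings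
of the other item are free, and a reading of a shared bit costs the number of the vertices of the
first layer on which the bit depends. The cost is the sum of these prices for all leaves, plus the
number of inner nodes of the branching programs, plus the number of wires which lead to gates
`sym`. All other gates and constants are free.

(1) Random circuits with error probability at most `1 / 3` have cost `s ≥ n ^ 3 / (7000 (w c + log₂
n))`.
(2) Exhaustive search is a circuit without shared bits, with `w = 1` and of cost at most `2 n ^ 3 +
1`.

Proof. The item of a vertex `i` can ask for about `n ^ 2 log₂ n` bits which are encoded in the
weights between the second and the third layer. We count the functions of this item which arise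
when the other items are fixed (Nechiporuk's method). Without maxima a formula with `r` readings of
the item is, on each sign pattern, a polynomial in `O (r)` parameters, and Warren's theorem bounds
the number of sign patterns. A maximum of two subformulas with `r'` and `r''` readings multiplies
the numbers of their pieces, and this argument gives nothing. Here only the pieces of the lighter
input of each gate are refined by means of Warren's theorem; a place is then refined at most `log₂
s` times, and the number of functions is `n ^ (O (r log s))` (`Run7.h413.MX.Cov`,
`Run7.h413.MX.Core`). The values of the shared bits are treated one after the other
(`Run7.h413.MX.Prog`).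
-/

set_option autoImplicit false

namespace Pool.Agent.Results.MP_885423_lc.MaximumGates

open Pool.Agent.TH697.Form (IsProb)
open Pool.Agent.TH697.Row (ApproximatesOn)
open Pool.Agent.TH697.Form.MinPlus (Item InRange shortcut)
open Run7.h413.MX (Circuit)
open Run7.h413.MX.MinPlus (rows)

theorem result :
    (∀ n c w : ℕ, 16 ≤ n → 1 ≤ c → 1 ≤ w →
      ∀ (Ω : Type) [Fintype Ω] (μ : Ω → ℝ), IsProb μ →
        ∀ (s : ℕ) (C : Ω → Circuit (Option (Fin n)) (Item n) w (n ^ c)),
          (∀ ω, (C ω).circ.cost (rows n) ≤ s) →
          ApproximatesOn μ (fun ω => (C ω).eval) (InRange n (n + 1)) (shortcut n) →
          (n : ℝ) ^ 3 ≤ 7000 * (w * c + Real.logb 2 n) * s) ∧
    (∀ n q : ℕ, ∃ C : Circuit (Option (Fin n)) (Item n) 1 q, C.bits = 0 ∧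
      C.circ.cost (rows n) ≤ 2 * n ^ 3 + 1 ∧ ∀ x, C.eval x = shortcut n x) :=
  ⟨fun _ _ _ hn hc hw _ _ μ hμ s C hs hC =>
    Run7.h413.MX.MinPlus.bound hn hc hw μ hμ s C hs hC,
    fun n q => Run7.h413.MX.MinPlus.upper n q⟩

end Pool.Agent.Results.MP_885423_lc.MaximumGates
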