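import Mathlib
import Pool.Agent.Run7.h412.SP.MinPlus

/-!
# Shortest paths: span programs over finite fields which test real formulas

A directed graph has three layers of `n` vertices and the edge weights `A i k` (first to second
layer), `B k j` (second to third layer) and `C i j` (first to third layer), integers in
`{1, …, n + 1}`. Is some edge `i → j` longer than a path `i → k → j` (`shortcut`)? The items of the input
are the weights of all edges at `i`, for each vertex `i` of the first layer, and the matrix `B` (so
everything that can be computed from `B` alone is free).

A real formula (`Fml`) is built from real constants, arbitrary real functions of one item, and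
arbitrary real functions of `w` words of length `c log₂ n`, where each word is an arbitrary
function of one item, by sums, products, sign tests `pos`, and gates `sym` of any fan-in whose value
is an arbitrary real function of the number of positive inputs. A span program (`SpanProgram`,
Karchmer and Wigderson 1993) over a finite field `K` has vectors of a space `K ^ dim`, each of which
is guarded by a real formula, a subspace of free vectors, and a target vector; it accepts the input if
the target is a linear combination of free vectors and of vectors whose guards accept the input. The
size is the number of the guarded vectors plus the sizes of the guards (leaves, and wires to gates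
`sym`); the dimension and the free vectors are not counted. Undirected contact schemes over all
fields, and the parity and modular versions of branching programs (is the number of accepting paths
nonzero in `K`) are span programs.

We show that random span programs (first the random choice) of size at most `s` which accept the
graphs with such an edge, or which accept the graphs without such an edge, with error probability at
most `1 / 3`, need `n ^ 3 ≤ 2000 w (n √(log₂ |K|) + 180 c w) s`, that is, size of the order `n ^ 2` for
every fixed field: on the average every one of the `n` items has to be read about `n` times.

Proof. The weights at `i` can ask for about `n ^ 2 log₂ n` bits which are encoded in the matrix `B`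
(the queries of helper697 and helper457). If `r` leaves
see an item, then for fixed other items the coefficients of the live vectors which complete a
combination form an affine subspace of `K ^ r` or the empty set, so there are at most
`2 |K| ^ (r ^ 2 + r)` possibilities, and the guards take `2 ^ O (r log n)` different functions of the
item (Warren's bound, `Pool.Agent.Y638.RF.Core`); the rest is Nechiporuk's method with random
strings (`Pool.Agent.Run7.h412.SP.Core`, `Pool.Agent.Run7.h412.SP.Lower`).
-/

set_option autoImplicit false

namespace Pool.Agent.Results.MP_885423_lc.SpanPrograms

open Pool.Agent.TH697.Form (IsProb)
open Pool.Agent.TH697.Row (ApproximatesOn)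
open Pool.Agent.TH697.Form.MinPlus (Item InRange shortcut)
open Pool.Agent.Run7.h412.SP (SpanProgram)

theorem result : ∀ (K : Type) [Field K] [Fintype K] (n c w : ℕ), 16 ≤ n → 1 ≤ c → 1 ≤ w →
    ∀ (Ω : Type) [Fintype Ω] (μ : Ω → ℝ), IsProb μ →
      ∀ (s : ℕ) (N : Ω → SpanProgram K (Option (Fin n)) (Item n) w (n ^ c)),
        (∀ ω, (N ω).size ≤ s) →
        (ApproximatesOn μ (fun ω => (N ω).eval) (InRange n (n + 1)) (shortcut n) ∨
          ApproximatesOn μ (fun ω x => !(N ω).eval x) (InRange n (n + 1)) (shortcut n)) →
        (n : ℝ) ^ 3 ≤ 2000 * w * (n * √(Real.logb 2 (Fintype.card K)) + 180 * c * w) * s :=
  fun _ _ _ _ _ _ hn hc hw _ _ μ hμ s N hs hN =>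
    Pool.Agent.Run7.h412.SP.MinPlus.bound hn hc hw μ hμ s N hs hN

end Pool.Agent.Results.MP_885423_lc.SpanPrograms
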